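import Mathlib
import Pool.Agent.X46.SidExp

/-!
# Sidorenko exponents of tight cycles grow linearly, in every uniformity
-/

namespace Pool.Agent.Results.MP_c1a6cd_co.TightCycleLinear

open Finset Classical Pool.Agent.X46.SidF Pool.Agent.X46.SidE

/-- The vertex `i + j` modulo `N`. -/
def shift {N : ℕ} (i : Fin N) (j : ℕ) : Fin N :=
  ⟨(i.val + j) % N, Nat.mod_lt _ (Nat.lt_of_le_of_lt (Nat.zero_le _) i.2)⟩

/-- The edge `{i, i+1, …, i+r-1}` (indices modulo `N`). -/
noncomputable def cycEdge (r : ℕ) {N : ℕ} (i : Fin N) : Finset (Fin N) :=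
  univ.image (fun j : Fin r => shift i j.val)

theorem shift_inj {r N : ℕ} (hrN : r ≤ N) (i : Fin N) :
    Function.Injective (fun j : Fin r => shift i j.val) := by
  intro j j' h
  have h1 : (i.val + j.val) % N = (i.val + j'.val) % N := congrArg Fin.val h
  have h2 : j.val ≡ j'.val [MOD N] := Nat.ModEq.add_left_cancel' i.val h1
  have h3 := j.2
  have h4 := j'.2
  unfold Nat.ModEq at h2
  rw [Nat.mod_eq_of_lt (by omega), Nat.mod_eq_of_lt (by omega)] at h2
  exact Fin.ext h2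

/-- The `r`-uniform tight cycle `C^(r)_{rℓ}` on the vertex set `ℤ/rℓ`. -/
noncomputable def tightCycle (r ℓ : ℕ) (hℓ : 1 ≤ ℓ) : RGraph r (Fin (r * ℓ)) where
  edges := univ.image (fun i => cycEdge r i)
  card_edge := by
    intro e he
    obtain ⟨i, -, rfl⟩ := mem_image.1 he
    unfold cycEdge
    rw [card_image_of_injective _ (shift_inj (Nat.le_mul_of_pos_right r hℓ) i), card_univ,
      Fintype.card_fin]

theorem tight_partite (r ℓ : ℕ) (hr : 1 ≤ r) (hℓ : 1 ≤ ℓ) : (tightCycle r ℓ hℓ).IsPartite := by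
  refine ⟨fun v => ⟨v.val % r, Nat.mod_lt _ hr⟩, ?_⟩
  intro e he c
  obtain ⟨i, -, rfl⟩ := mem_image.1 he
  have hmod : ∀ j : ℕ, (shift i j).val % r = (i.val + j) % r := by
    intro j
    show (i.val + j) % (r * ℓ) % r = (i.val + j) % r
    exact Nat.mod_mod_of_dvd _ (Dvd.intro ℓ rfl)
  have hc := c.2
  -- the right index
  set j₀ : ℕ := (c.val + (r - i.val % r)) % r with hj₀
  have hj₀r : j₀ < r := Nat.mod_lt _ hr
  have hj₀c : (i.val + j₀) % r = c.val := by
    have h1 : (i.val + j₀) % r = (i.val + (c.val + (r - i.val % r))) % r := by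
      rw [hj₀, Nat.add_mod_mod]
    have h2 : i.val % r < r := Nat.mod_lt _ hr
    have h3 : i.val = r * (i.val / r) + i.val % r := (Nat.div_add_mod i.val r).symm
    have h4 : i.val + (c.val + (r - i.val % r)) = c.val + r * (i.val / r + 1) := by
      have : r * (i.val / r + 1) = r * (i.val / r) + r := by ring
      omega
    rw [h1, h4, Nat.add_mul_mod_self_left, Nat.mod_eq_of_lt hc]
  refine ⟨shift i j₀, ⟨?_, ?_⟩, ?_⟩
  · exact mem_image.2 ⟨⟨j₀, hj₀r⟩, mem_univ _, rfl⟩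
  · apply Fin.ext
    show (shift i j₀).val % r = c.val
    rw [hmod, hj₀c]
  · rintro v ⟨hv, hv'⟩
    obtain ⟨j, -, rfl⟩ := mem_image.1 hv
    have h1 : (shift i j.val).val % r = c.val := congrArg Fin.val hv'
    rw [hmod] at h1
    have h2 : j.val ≡ j₀ [MOD r] := by
      apply Nat.ModEq.add_left_cancel' i.val
      unfold Nat.ModEq
      rw [h1, hj₀c]
    unfold Nat.ModEq at h2
    rw [Nat.mod_eq_of_lt j.2, Nat.mod_eq_of_lt hj₀r] at h2
    rw [h2]

theorem mem_left {Ω : Type*} {s : Finset Ω} {P : Ω → Prop} {inst : DecidablePred P} {x : Ω}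
    (h : x ∈ @Finset.filter _ P inst s) : x ∈ s := ((@Finset.mem_filter _ P inst s x).1 h).1

theorem tight_degree (r ℓ : ℕ) (hℓ : 1 ≤ ℓ) : (tightCycle r ℓ hℓ).MaxDegreeLE r := by
  intro v
  have hN : 0 < r * ℓ := Nat.lt_of_le_of_lt (Nat.zero_le _) v.2
  have hrN : r ≤ r * ℓ := Nat.le_mul_of_pos_right r hℓ
  refine (card_le_card (t := (univ.image (fun j : Fin r =>
    shift v (r * ℓ - j.val))).image (fun i => cycEdge r i)) ?_).trans
      (card_image_le.trans (card_image_le.trans ?_))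
  · intro e he
    have he1 := mem_left he
    have he2 := of_mem_filter he
    obtain ⟨i, -, rfl⟩ := mem_image.1 he1
    obtain ⟨j, -, rfl⟩ := mem_image.1 he2
    refine mem_image.2 ⟨i, mem_image.2 ⟨j, mem_univ _, ?_⟩, rfl⟩
    apply Fin.ext
    show ((i.val + j.val) % (r * ℓ) + (r * ℓ - j.val)) % (r * ℓ) = i.val
    rw [Nat.mod_add_mod]
    have h2 := j.2
    have h3 : i.val + j.val + (r * ℓ - j.val) = i.val + r * ℓ := by omega
    rw [h3, Nat.add_mod_right, Nat.mod_eq_of_lt i.2]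
  · rw [card_univ, Fintype.card_fin]

/-- **Linear growth of the Sidorenko exponents of tight cycles.** For every `r ≥ 2` there is a
constant `K` with `s(C^(r)_{rℓ}) ≤ K r ℓ` for all `ℓ ≥ 1`; the supremum defining the exponent is
over a nonempty set that is bounded above. -/
theorem result : ∀ r : ℕ, 2 ≤ r → ∃ K : ℕ, ∀ (ℓ : ℕ) (hℓ : 1 ≤ ℓ),
    (sidorenkoSet (tightCycle r ℓ hℓ)).Nonempty ∧ BddAbove (sidorenkoSet (tightCycle r ℓ hℓ)) ∧
      sidorenkoExponent (tightCycle r ℓ hℓ) ≤ (K : ℝ) * ((r : ℝ) * (ℓ : ℝ)) := by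
  intro r hr
  obtain ⟨f, hf⟩ := main r (by omega)
  refine ⟨f r, ?_⟩
  intro ℓ hℓ
  have hp := tight_partite r ℓ (by omega) hℓ
  have hd := tight_degree r ℓ hℓ
  have h1 : ∀ (n : ℕ), 0 < n → ∀ H : RGraph r (Fin n),
      homDensity (oneEdge r) H ^ (f r * (tightCycle r ℓ hℓ).edges.card) ≤
        homDensity (tightCycle r ℓ hℓ) H := by
    intro n hn H
    have : Nonempty (Fin n) := ⟨⟨0, hn⟩⟩
    exact hf r _ (tightCycle r ℓ hℓ) hp hd (Fin n) H
  have h2 := exponent_le hr (tightCycle r ℓ hℓ) _ h1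
  have h3 := set_nonempty hr (tightCycle r ℓ hℓ) hp
  have hcard : (tightCycle r ℓ hℓ).edges.card ≤ r * ℓ := by
    show (univ.image (fun i => cycEdge r i)).card ≤ r * ℓ
    refine card_image_le.trans ?_
    rw [card_univ, Fintype.card_fin]
  have h4 : ∀ s ∈ sidorenkoSet (tightCycle r ℓ hℓ), s ≤ (f r : ℝ) * ((r : ℝ) * (ℓ : ℝ)) := by
    intro s hs
    refine (h2 s hs).trans ?_
    have : f r * (tightCycle r ℓ hℓ).edges.card ≤ f r * (r * ℓ) := Nat.mul_le_mul_left _ hcard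
    exact_mod_cast this
  exact ⟨h3, ⟨_, h4⟩, csSup_le h3 h4⟩

end Pool.Agent.Results.MP_c1a6cd_co.TightCycleLinear
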